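import Pool.Agent.Helper79_TOR.Stmts

/-! T2-STAB block of team TOR, modules FLQ and XEX -/

set_option autoImplicit false

namespace Pool.Agent.TST.H63

open Pointwise Set Pool.Agent.TOR Pool.Agent.TOR.H58

/-- FLQ -/
theorem flq : FLQ := by
  intro G Ω V _ _ M _ hs P Q hP hPf hPg hPc hQ hQg hQc hsQ e hfin hsP hsN hsur
  exact flow_relQ hs P Q (fun A B hA hB hd h => hP A B hd hA hB h)
    (fun A hA h => hPf A h hA) (fun A g _ h => hPg A g h) (fun A _ h => hPc A h)
    hQ hQg hQc hsQ e hfin hsP hsN hsur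

section facts

variable {F : Type} [Group F]

theorem ind_smul (g : F) (A : Set F) (y : F) : ind (g • A) y = ind A (g⁻¹ * y) := by
  classical
  unfold ind
  have : y ∈ g • A ↔ g⁻¹ * y ∈ A := by
    rw [Set.mem_smul_set_iff_inv_smul_mem, smul_eq_mul]
  by_cases h : g⁻¹ * y ∈ A
  · rw [if_pos h, if_pos (this.2 h)]
  · rw [if_neg h, if_neg fun h' => h (this.1 h')]

omit [Group F] in
theorem ind_compl (A : Set F) (y : F) : ind Aᶜ y = 1 - ind A y := by
  classical
  unfold ind
  by_cases h : y ∈ A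
  · rw [if_pos h, if_neg (show y ∉ Aᶜ from fun h' => h' h)]; norm_num
  · rw [if_neg h, if_pos (show y ∈ Aᶜ from h)]; norm_num

omit [Group F] in
theorem ind_union (A B : Set F) (h : Disjoint A B) (y : F) :
    ind (A ∪ B) y = ind A y + ind B y := by
  classical
  unfold ind
  by_cases hA : y ∈ A
  · have hB : y ∉ B := fun hB => Set.disjoint_left.1 h hA hB
    rw [if_pos hA, if_neg hB, if_pos (show y ∈ A ∪ B from Or.inl hA)]; norm_num
  · by_cases hB : y ∈ B
    · rw [if_neg hA, if_pos hB, if_pos (show y ∈ A ∪ B from Or.inr hB)]; norm_num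
    · rw [if_neg hA, if_neg hB, if_neg (show y ∉ A ∪ B by rintro (h | h); exacts [hA h, hB h])]; norm_num

theorem supp_fin {A : Set F} (hA : AI A) (x : F) :
    (Function.support fun y : F => ind A (y * x) - ind A y).Finite := by
  classical
  refine (hA x).subset fun y hy => ?_
  rw [Function.mem_support] at hy
  intro h
  apply hy
  unfold ind
  by_cases h1 : y ∈ A
  · rw [if_pos h1, if_pos (h.1 h1), sub_self]
  · rw [if_neg h1, if_neg fun h2 => h1 (h.2 h2), sub_self]

theorem cl_smul (g : F) (A : Set F) : cl (g • A) = cl A := by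
  funext x
  unfold cl
  have h1 : (fun y : F => ind (g • A) (y * x) - ind (g • A) y) =
      fun y : F => (fun y : F => ind A (y * x) - ind A y) (Equiv.mulLeft g⁻¹ y) := by
    funext y
    change ind (g • A) (y * x) - ind (g • A) y = ind A (g⁻¹ * y * x) - ind A (g⁻¹ * y)
    rw [ind_smul, ind_smul, mul_assoc]
  rw [h1]
  exact finsum_comp_equiv (Equiv.mulLeft g⁻¹) (f := fun y : F => ind A (y * x) - ind A y)

theorem cl_compl (A : Set F) (x : F) : cl Aᶜ x = - cl A x := by
  unfold cl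
  rw [← finsum_neg_distrib]
  congr 1
  funext y
  rw [ind_compl, ind_compl]
  ring

theorem cl_union {A B : Set F} (hA : AI A) (hB : AI B) (h : Disjoint A B) (x : F) :
    cl (A ∪ B) x = cl A x + cl B x := by
  unfold cl
  rw [← finsum_add_distrib (supp_fin hA x) (supp_fin hB x)]
  congr 1
  funext y
  rw [ind_union A B h, ind_union A B h]
  ring

theorem ai_compl {A : Set F} (hA : AI A) : AI Aᶜ := by
  intro x
  refine (hA x).subset fun y hy h => hy ?_
  change (¬ y ∈ A) ↔ ¬ y * x ∈ A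
  rw [h]

theorem ai_smul {A : Set F} (hA : AI A) (g : F) : AI (g • A) := by
  intro x
  have : {y : F | ¬ (y ∈ g • A ↔ y * x ∈ g • A)} ⊆
      (fun y => g * y) '' {y : F | ¬ (y ∈ A ↔ y * x ∈ A)} := by
    intro y hy
    refine ⟨g⁻¹ * y, ?_, by simp⟩
    intro h
    apply hy
    rw [Set.mem_smul_set_iff_inv_smul_mem, Set.mem_smul_set_iff_inv_smul_mem, smul_eq_mul,
      smul_eq_mul, ← mul_assoc]
    exact h
  exact ((hA x).image _).subset this

theorem ai_inter {A B : Set F} (hA : AI A) (hB : AI B) : AI (A ∩ B) := by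
  intro x
  refine ((hA x).union (hB x)).subset fun y hy => ?_
  by_contra h
  apply hy
  rw [Set.mem_union, not_or] at h
  have h1 : y ∈ A ↔ y * x ∈ A := not_not.1 h.1
  have h2 : y ∈ B ↔ y * x ∈ B := not_not.1 h.2
  exact and_congr h1 h2

theorem rst_compl {A : Set F} {z : F} (h : z ∈ RSt A) : z ∈ RSt Aᶜ := by
  rw [mem_RSt] at h ⊢
  intro y
  change (¬ y * z ∈ A) ↔ ¬ y ∈ A
  rw [h]

theorem rst_smul {A : Set F} {z : F} (h : z ∈ RSt A) (g : F) : z ∈ RSt (g • A) := by
  rw [mem_RSt] at h ⊢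
  intro y
  rw [Set.mem_smul_set_iff_inv_smul_mem, Set.mem_smul_set_iff_inv_smul_mem, smul_eq_mul,
    smul_eq_mul, ← mul_assoc]
  exact h _

theorem rst_inter {A B : Set F} {z : F} (hA : z ∈ RSt A) (hB : z ∈ RSt B) :
    z ∈ RSt (A ∩ B) := by
  rw [mem_RSt] at hA hB ⊢
  intro y
  exact and_congr (hA y) (hB y)

/-- translates of a nontrivial almost invariant set -/
theorem smul_ne [IsMulTorsionFree F] {A : Set F} (hA : AI A) (hcl : ∃ x, cl A x ≠ 0) (g : F)
    (hg : g ≠ 1) : g • A ≠ A ∧ g • A ≠ Aᶜ := by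
  obtain ⟨x, hx⟩ := hcl
  constructor
  · intro h
    set S : Set F := {y : F | ¬ (y ∈ A ↔ y * x ∈ A)} with hS
    have hne : S.Nonempty := by
      by_contra hn
      rw [Set.not_nonempty_iff_eq_empty] at hn
      apply hx
      unfold cl
      rw [← finsum_zero (α := F)]
      congr 1
      funext y
      have : y ∉ S := by rw [hn]; exact Set.notMem_empty y
      have h1 : y ∈ A ↔ y * x ∈ A := not_not.1 this
      classical
      unfold ind
      by_cases h2 : y ∈ A
      · rw [if_pos h2, if_pos (h1.1 h2), sub_self]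
      · rw [if_neg h2, if_neg fun h3 => h2 (h1.2 h3), sub_self]
    obtain ⟨y, hy⟩ := hne
    have hmem : ∀ w, g * w ∈ A ↔ w ∈ A := by
      intro w
      conv_lhs => rw [← h]
      rw [Set.mem_smul_set_iff_inv_smul_mem, smul_eq_mul, inv_mul_cancel_left]
    have hstep : ∀ w ∈ S, g * w ∈ S := by
      intro w hw h1
      apply hw
      rw [hmem, mul_assoc, hmem] at h1
      exact h1
    have hall : ∀ n : ℕ, g ^ n * y ∈ S := by
      intro n
      induction n with
      | zero => rw [pow_zero, one_mul]; exact hy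
      | succ n ih => rw [pow_succ', mul_assoc]; exact hstep _ ih
    have hinj : Function.Injective fun n : ℕ => g ^ n * y := by
      intro a b hab
      have h2 : g ^ a = g ^ b := mul_right_cancel hab
      exact injective_pow_iff_not_isOfFinOrder.2 (fun hfin =>
        hg ((isOfFinOrder_iff_eq_one g).1 hfin)) h2
    exact (Set.infinite_of_injective_forall_mem hinj hall) (hA x)
  · intro h
    have h1 := congrFun (cl_smul g A) x
    rw [h, cl_compl] at h1
    exact hx (by omega)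

end facts

section weights

variable {ι : Type} [Fintype ι] {R : Type} [CommRing R]

theorem wt_add (χ : ι → Rˣ) (h h' : FreeGroup ι → ℤ) :
    wt χ (fun x => h x + h' x) = wt χ h * wt χ h' := by
  unfold wt
  rw [← Finset.prod_mul_distrib]
  exact Finset.prod_congr rfl fun x _ => zpow_add _ _ _

theorem wt_neg (χ : ι → Rˣ) (h : FreeGroup ι → ℤ) :
    wt χ (fun x => - h x) = (wt χ h)⁻¹ := by
  unfold wt
  rw [← Finset.prod_inv_distrib]
  exact Finset.prod_congr rfl fun x _ => zpow_neg _ _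

theorem act_compl (χ : ι → Rˣ) {A : Set (FreeGroup ι)} (h : Actv χ A) : Actv χ Aᶜ := by
  unfold Actv at h ⊢
  have e : cl Aᶜ = fun x => - cl A x := funext fun x => cl_compl A x
  rw [e, wt_neg]
  set w := wt χ (cl A)
  have : ((w⁻¹ : Rˣ) : R) - 1 = -(((w⁻¹ : Rˣ) : R) * ((w : R) - 1)) := by
    rw [mul_sub, Units.inv_mul, mul_one]
    ring
  rw [this]
  exact ((Units.isUnit _).mul h).neg

theorem act_smul (χ : ι → Rˣ) {A : Set (FreeGroup ι)} (h : Actv χ A) (g : FreeGroup ι) :
    Actv χ (g • A) := by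
  unfold Actv at h ⊢
  rwa [cl_smul]

theorem act_cl [Nontrivial R] (χ : ι → Rˣ) {A : Set (FreeGroup ι)} (h : Actv χ A) :
    ∃ x, cl A x ≠ 0 := by
  by_contra hn
  push Not at hn
  unfold Actv wt at h
  have : ∏ x : ι, χ x ^ cl A (FreeGroup.of x) = 1 := by
    refine Finset.prod_eq_one fun x _ => ?_
    rw [hn, zpow_zero]
  rw [this, Units.val_one, sub_self] at h
  exact not_isUnit_zero h

theorem act_union [IsLocalRing R] (χ : ι → Rˣ) {A B : Set (FreeGroup ι)} (hA : AI A) (hB : AI B)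
    (hd : Disjoint A B) (h : Actv χ (A ∪ B)) : Actv χ A ∨ Actv χ B := by
  unfold Actv at h ⊢
  have e : cl (A ∪ B) = fun x => cl A x + cl B x := funext fun x => cl_union hA hB hd x
  rw [e, wt_add] at h
  set u := wt χ (cl A)
  set w := wt χ (cl B)
  have e2 : ((u * w : Rˣ) : R) - 1 = (w : R) * ((u : R) - 1) + ((w : R) - 1) := by
    rw [Units.val_mul]; ring
  rw [e2] at h
  rcases IsLocalRing.isUnit_or_isUnit_of_isUnit_add h with h1 | h1
  · exact Or.inl (isUnit_of_mul_isUnit_right h1)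
  · exact Or.inr h1

end weights

/-- XEX -/
theorem xex (hFLQ : FLQ) (hFL3 : FL3) : XEX := by
  classical
  intro R _ _ ι _ z χ i hiz hi M _
  obtain ⟨E0, hE0ai, hE0sn, hE0st, hE0cl, hE0cl1, hE0cr⟩ := hFL3 ι i
  have hE0act : Actv χ E0 := by
    unfold Actv wt
    rw [Finset.prod_eq_single i]
    · rw [hE0cl1, zpow_one]; exact hi
    · intro j _ hj
      rw [hE0cl j hj, zpow_zero]
    · intro h; exact absurd (Finset.mem_univ _) h
  have hsph : ∀ v : VV z χ, Sph z χ (hsV v) := fun v => (Quotient.out v).2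
  have hE0 : Sph z χ E0 := ⟨hE0ai, hE0st z (Ne.symm hiz), hE0sn, hE0act⟩
  have hrep : ∀ A : Set (FreeGroup ι), Sph z χ A → ∃ v : VV z χ, ∃ g : FreeGroup ι,
      hsV v = g • A := by
    intro A hA
    refine ⟨Quotient.mk (sphS z χ) ⟨A, hA⟩, ?_⟩
    have h1 : (sphS z χ).r ⟨A, hA⟩ (Quotient.out (Quotient.mk (sphS z χ) ⟨A, hA⟩)) :=
      (sphS z χ).symm' (Quotient.mk_out (s := sphS z χ) (⟨A, hA⟩ : {E // Sph z χ E}))
    exact h1
  obtain ⟨e, g0, he⟩ := hrep E0 hE0
  refine hFLQ (FreeGroup ι) (FreeGroup ι) (VV z χ) M hsV (Actv χ)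
    (fun A => AI A ∧ FreeGroup.of z ∈ RSt A)
    (fun A B hd hA hB h => act_union χ hA.1 hB.1 hd h)
    (fun A hP hQ g hg => smul_ne hQ.1 (act_cl χ hP) g hg)
    (fun A g hP => act_smul χ hP g) (fun A hP => act_compl χ hP)
    (fun C E _ hC hE => ⟨ai_inter hC.1 hE.1, rst_inter hC.2 hE.2⟩)
    (fun A g hA => ⟨ai_smul hA.1 g, rst_smul hA.2 g⟩)
    (fun A hA => ⟨ai_compl hA.1, rst_compl hA.2⟩)
    (fun v => ⟨(hsph v).ai, (hsph v).zin⟩) e (fun v => ?_) (fun v => (hsph v).act)
    (fun v => (hsph v).sn) (fun A hP hQ hsn _ => ?_)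
  · have h1 : Cr (FreeGroup ι) (hsV e) (hsV v) ⊆
        (fun g => g0 * g) '' Cr (FreeGroup ι) E0 (hsV v) := by
      intro g hg
      refine ⟨g0⁻¹ * g, ?_, by simp⟩
      intro h2
      apply hg
      rw [he]
      have h3 := (nst_smul g0 (A := (g0⁻¹ * g) • hsV v) (B := E0)).2 h2
      rw [smul_smul, mul_inv_cancel_left] at h3
      exact h3
    exact ((hE0cr _ (hsph v).ai).image _).subset h1
  · obtain ⟨v, g, hv⟩ := hrep A ⟨hQ.1, hQ.2, hsn, hP⟩
    exact ⟨v, g, Or.inl hv⟩

end Pool.Agent.TST.H63
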